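import Pool.Agent.H37.CND.Stmts

/-!
# Row INJ of the board `cnd`
-/

set_option autoImplicit false

namespace Pool.CND

theorem inj_thm (hLON : S_LON) : S_INJ := by
  intro k L _ _ _ P g u hg hu h1 hgu
  apply AlgEquiv.ext
  intro x
  show g x = x
  by_contra hne
  have hx : x ≠ 0 := by
    rintro rfl
    exact hne (map_zero g)
  have hd : g x - x ≠ 0 := sub_ne_zero.mpr hne
  have hi : ∀ i : ℤ, 0 ≤ i → P.ord x + i ≤ P.ord (g x - x) := by
    intro i h0
    have hz : P.Ge (g u - u) (i + 1) := by
      rw [hgu, sub_self]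
      exact P.ge_zero _
    rcases hLON k L P g u i hg hu h1 h0 hz x with h | h
    · exact (P.ge_iff hd _).mp h
    · exact absurd h hx
  have h2 := hi (max 0 (P.ord (g x - x) - P.ord x + 1)) (le_max_left _ _)
  have h3 := le_max_right 0 (P.ord (g x - x) - P.ord x + 1)
  linarith

end Pool.CND
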